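import Pool.Agent.W831.ECC.God
import Pool.Agent.U389.FR.Fin
import Pool.Agent.U389.SC.Main

/-!
# Eulerian admissible weights with slack in the cuts: from conditions on the cuts to the lattice and
the cone of the circuits
-/

set_option autoImplicit false

namespace Pool.Agent.U389.GD

open Finset
open Pool.Agent.H126R2.CDC (MGraph)
open Pool.Agent.H126R2.NC (InLat InIntCone InCone TC circuit_tc cone_lat_of_intCone)
open Pool.Agent.W831.ECC
open Pool.Agent.W831.ECC.Gad (CutC Lv)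
open Pool.Agent.U389.SC (err err_nonneg)
open Pool.Agent.U389.FR (TreeDec deep_tw)

variable {V E : Type} [Fintype V] [DecidableEq V] [Fintype E] [DecidableEq E]

/-- a weight with even cuts which is constant on the two-edge cuts lies in the lattice of the
circuits -/
theorem inLat_of (G : MGraph V E) (hbr : G.Bridgeless) (v : E × Bool → V)
    (hv : ∀ e, G.ends e = s(v (e, false), v (e, true))) (w : E → ℕ) (htc : TCc v w)
    (hpar : G.IsEven (univ.filter fun e => Odd (w e))) : InLat G w := by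
  classical
  obtain ⟨W, hW⟩ : ∃ W : Finset E, W = univ.filter fun e => Odd (w e) := ⟨_, rfl⟩
  have h1 : InLat G (fun e => if e ∈ W then 1 else 0) :=
    (cone_lat_of_intCone G _ (intCone_even G W (by rw [hW]; exact hpar))).2
  obtain ⟨M, hM⟩ : ∃ M : ℕ, ∀ e, w e ≤ M :=
    ⟨∑ e, w e, fun e => Finset.single_le_sum (f := w) (fun _ _ => Nat.zero_le _)
      (Finset.mem_univ e)⟩
  have h2 : InLat G (fun e => 2 * (w e / 2 + (4 * M + 41))) :=
    (cone_lat_of_intCone G _ (Pool.Agent.N411.CV.cover_even G hbr v hv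
      (fun e => w e / 2 + (4 * M + 41))
      (fun e f h => by
        have h5 : w e = w f := htc e f h
        simp only [h5])
      (fun e f => by
        have h5 := hM e
        show 7 * (w e / 2 + (4 * M + 41)) + 41 ≤ 9 * (w f / 2 + (4 * M + 41))
        omega))).2
  have h3 : InLat G (fun _ => 2 * (4 * M + 41)) :=
    (cone_lat_of_intCone G _ (Pool.Agent.N411.CV.cover_even G hbr v hv
      (fun _ => 4 * M + 41) (fun _ _ _ => rfl)
      (fun _ _ => by
        show 7 * (4 * M + 41) + 41 ≤ 9 * (4 * M + 41)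
        omega))).2
  have h4 : (fun e => (w e : ℤ)) = (fun e => ((2 * (w e / 2 + (4 * M + 41)) : ℕ) : ℤ)) -
      (fun _ => ((2 * (4 * M + 41) : ℕ) : ℤ)) + fun e => (((if e ∈ W then 1 else 0) : ℕ) : ℤ) := by
    ext e
    rw [Pi.add_apply, Pi.sub_apply]
    have hmem : e ∈ W ↔ Odd (w e) := by
      rw [hW, Finset.mem_filter]
      exact ⟨fun h => h.2, fun h => ⟨Finset.mem_univ _, h⟩⟩
    by_cases h : Odd (w e)
    · rw [if_pos (hmem.2 h)]
      rw [Nat.odd_iff] at h
      omega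
    · rw [if_neg (fun h1 => h (hmem.1 h1))]
      rw [Nat.not_odd_iff_even, Nat.even_iff] at h
      omega
  unfold InLat at h1 h2 h3 ⊢
  rw [h4]
  exact AddSubgroup.add_mem _ (AddSubgroup.sub_mem _ h2 h3) h1

/-- the conditions on the cuts give the lattice and the cone -/
theorem core (G : MGraph V E) (w : E → ℕ)
    (heul : ∀ (S : Finset V) (B : Finset E), (∀ f, f ∈ B ↔ f ∈ cutEdges G S) →
      Even (∑ e ∈ B, w e))
    (hadm : ∀ (S : Finset V) (B : Finset E), (∀ f, f ∈ B ↔ f ∈ cutEdges G S) →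
      ∀ e ∈ B, 2 * w e ≤ ∑ f ∈ B, w f)
    (hpos : ∀ e, 0 < w e) (r : E → ℝ) (hr0 : ∀ e, r e ≤ w e)
    (hcut : ∀ (S : Finset V) (B : Finset E), (∀ f, f ∈ B ↔ f ∈ cutEdges G S) →
      ∀ e ∈ B, (w e : ℝ) - r e ≤ ∑ f ∈ B.erase e, ((w f : ℝ) - r f)) :
    InLat G w ∧ RCone G (fun e => (w e : ℝ) - r e) := by
  classical
  obtain ⟨v, hv⟩ := G.exists_halves
  have hmem : ∀ (S : Finset V) (f : E), f ∈ univ.filter (fun f => Lv v S f) ↔ f ∈ cutEdges G S := by
    intro S f
    rw [mem_cutEdges G v hv]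
    simp
  have hadm' : ∀ (S : Finset V) (e : E), Lv v S e →
      2 * w e ≤ ∑ f ∈ univ.filter (fun f => Lv v S f), w f := by
    intro S e he
    exact hadm S _ (hmem S) e (by simp [he])
  refine ⟨inLat_of G (bridgeless_of_adm G v hv w hpos hadm') v hv w (tc_of_adm v w hadm')
    (parity_of_eul G v hv w (fun S => heul S _ (hmem S))), ?_⟩
  refine rcone_of_cut G v hv _ (fun e => by
    have := hr0 e
    linarith) ?_
  intro S e he
  have h1 := hcut S _ (hmem S) e (by simp [he])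
  refine h1.trans (le_of_eq ?_)
  rw [← Finset.sum_filter]
  refine Finset.sum_congr ?_ fun _ _ => rfl
  ext f
  simp only [Finset.mem_erase, Finset.mem_filter, Finset.mem_univ, true_and]

/-- graphs of bounded treewidth -/
theorem goddyn_tw (G : MGraph V E) {k : ℕ} (hk : 1 ≤ k) {N : Type} [Fintype N]
    (D : TreeDec G k N) (w : E → ℕ)
    (heul : ∀ (S : Finset V) (B : Finset E), (∀ f, f ∈ B ↔ f ∈ cutEdges G S) →
      Even (∑ e ∈ B, w e))
    (hadm : ∀ (S : Finset V) (B : Finset E), (∀ f, f ∈ B ↔ f ∈ cutEdges G S) →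
      ∀ e ∈ B, 2 * w e ≤ ∑ f ∈ B, w f)
    (L : ℝ) (hL : (2 : ℝ) ^ (4 * k + 5) ≤ L) (hr0 : ∀ e, L ≤ w e)
    (hcut : ∀ (S : Finset V) (B : Finset E), (∀ f, f ∈ B ↔ f ∈ cutEdges G S) →
      ∀ e ∈ B, (w e : ℝ) - L ≤ ∑ f ∈ B.erase e, ((w f : ℝ) - L)) : InIntCone G w := by
  have hL0 : 0 < L := lt_of_lt_of_le (by positivity) hL
  have hpos : ∀ e, 0 < w e := by
    intro e
    have h2 : (0 : ℝ) < w e := lt_of_lt_of_le hL0 (hr0 e)
    exact_mod_cast h2
  obtain ⟨h1, h2⟩ := core G w heul hadm hpos (fun _ => L) hr0 hcut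
  exact deep_tw G hk D w h1 L hL h2

/-- graphs with short circuits -/
theorem goddyn_short (G : MGraph V E) (ℓ : ℕ) (hℓ : ∀ C, G.IsCircuit C → C.card ≤ ℓ) (w : E → ℕ)
    (heul : ∀ (S : Finset V) (B : Finset E), (∀ f, f ∈ B ↔ f ∈ cutEdges G S) →
      Even (∑ e ∈ B, w e))
    (hadm : ∀ (S : Finset V) (B : Finset E), (∀ f, f ∈ B ↔ f ∈ cutEdges G S) →
      ∀ e ∈ B, 2 * w e ≤ ∑ f ∈ B, w f)
    (r : E → ℝ) (hr : ∀ e f, 7 * r e + 16 * err ℓ (Fintype.card E) + 91 ≤ 9 * r f)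
    (hr0 : ∀ e, r e ≤ w e)
    (hcut : ∀ (S : Finset V) (B : Finset E), (∀ f, f ∈ B ↔ f ∈ cutEdges G S) →
      ∀ e ∈ B, (w e : ℝ) - r e ≤ ∑ f ∈ B.erase e, ((w f : ℝ) - r f)) : InIntCone G w := by
  have herr := err_nonneg ℓ (Fintype.card E)
  have hpos : ∀ e, 0 < w e := by
    intro e
    have h3 := hr e e
    have h2 : (0 : ℝ) < w e := lt_of_lt_of_le (by linarith) (hr0 e)
    exact_mod_cast h2
  obtain ⟨h1, u, hu0, hu1, hu2⟩ := core G w heul hadm hpos r hr0 hcut
  refine Pool.Agent.U389.SC.main G w h1 univ (fun e => ⟨e, Finset.mem_univ _, fun _ _ => Iff.rfl⟩)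
    ℓ 0 u hu0 ?_ (fun _ _ => 0) (fun _ _ => le_rfl) (fun _ _ h => absurd h (lt_irrefl _)) r ?_ ?_
  · intro C hC
    have h4 : G.IsCircuit C := by
      by_contra hcon
      exact hC (hu1 C hcon)
    exact ⟨h4, (Finset.card_le_card Finset.inter_subset_left).trans (hℓ C h4)⟩
  · intro e
    have h5 := hu2 e
    rw [Finset.univ_eq_empty, Finset.sum_empty, add_zero, ← h5]
    ring
  · intro e f
    have h6 := hr e f
    rw [Finset.card_univ]
    simpa using h6

end Pool.Agent.U389.GD
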